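import Pool.Agent.helper7.PQ.Spec

/-! Row pq:ERB (MP_ebc808_nt): the right side is `0`. -/

set_option autoImplicit false

open Finset PowerSeries

noncomputable section

namespace Pool.Agent.PQ

open Pool.Agent.EP

theorem ERB (hNIL : NIL_stmt) : ERB_stmt := by
  intro b t n₀ u₀ μ r s P M hE hP
  obtain ⟨-, -, ht, -, -, -, -, -, hs, hcard, -, -⟩ := hE
  obtain ⟨hPp, hmod, -, hPs⟩ := hP
  -- `P` is prime to `6`
  have h6 : P.Coprime 6 := by
    have h1 : ((∏ q ∈ s, q) * P) % 6 = 1 := by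
      have hd : 6 ∣ 24 * t * 2 ^ b := ⟨4 * t * 2 ^ b, by ring⟩
      have h2 := Nat.mod_mod_of_dvd ((∏ q ∈ s, q) * P) hd
      rw [hmod] at h2
      omega
    have h3 : ((∏ q ∈ s, q) * P).Coprime 6 := by
      rw [Nat.Coprime, Nat.gcd_rec, Nat.gcd_comm]
      rw [Nat.gcd_comm, ← Nat.gcd_rec, Nat.gcd_comm, Nat.gcd_rec, h1]
      decide
    exact Nat.Coprime.coprime_dvd_left (Dvd.intro_left _ rfl) h3
  have hq : ∀ q ∈ s, q.Prime ∧ q % 24 = 7 ∧ ¬ q ∣ P := by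
    intro q hq
    refine ⟨(hs q hq).1, (hs q hq).2.1, fun hd => ?_⟩
    have := (Nat.prime_dvd_prime_iff_eq (hs q hq).1 hPp).1 hd
    exact hPs (this ▸ hq)
  unfold RB
  refine Finset.sum_eq_zero fun i hi => ?_
  rw [Finset.mem_Ico] at hi
  rw [hNIL s P i hq h6 (by omega), zero_mul]

end Pool.Agent.PQ
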